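import Pool.Agent.H76.LUD.Targets

/-!
# LIP: basic facts on nonexpanding maps
-/

set_option autoImplicit false

open Pool.Agent.H69 Pool.Agent.H81.TM Pool.Agent.H76.LUD

namespace Pool.Agent.H1.LUD

theorem pre_congr {v v' : ℕ → Bool} {n : ℕ} (h : ∀ i < n, v i = v' i) : pre v n = pre v' n := by
  unfold pre
  refine List.map_congr_left fun i hi => h i (List.mem_range.1 hi)

theorem lip_cont (E : (ℕ → Bool) → (ℕ → Bool)) (hE : Lip E) : Continuous E := by
  refine continuous_pi ?_
  intro n
  refine IsLocallyConstant.continuous ?_
  rw [IsLocallyConstant.iff_eventually_eq]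
  intro p
  have h1 : ∀ᶠ q : ℕ → Bool in nhds p, ∀ i ∈ Finset.range (n + 1), q i = p i := by
    rw [Filter.eventually_all_finset]
    intro i _
    have hc : Continuous (fun q : ℕ → Bool => q i) := continuous_apply i
    exact ((isOpen_discrete {p i}).preimage hc).mem_nhds rfl
  filter_upwards [h1] with q hq
  exact hE q p n fun i hi => hq i (Finset.mem_range.2 (by omega))

theorem pf_LIP : T_LIP := by
  refine ⟨lip_cont, ?_, ?_, ?_, ?_, ?_, ?_⟩
  · intro E hE
    refine ⟨fun s => E (fun i => s.getD i false) (s.length - 1), fun v n => ?_⟩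
    beta_reduce
    rw [pre_length, Nat.add_sub_cancel]
    refine hE _ _ n fun i hi => ?_
    rw [List.getD_eq_getElem?_getD, pre_getElem? v (Nat.lt_succ_of_le hi)]
    rfl
  · intro E E' hE hE' v v' n h
    exact hE _ _ n fun i hi => hE' v v' i fun j hj => h j (hj.trans hi)
  · intro E E' a b a' b' hE hE' v n
    have h1 := hE' v n
    have h2 := hE (E' v) (a' + b' * n)
    rw [h1, h2]
    congr 1
    ring
  · intro b
    refine ⟨?_, ?_⟩
    · intro v v' n h
      unfold cs
      split_ifs
      · rfl
      · exact h _ (Nat.sub_le n 1)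
    · intro v n
      unfold cs
      rw [if_neg (by omega)]
      congr 1
      omega
  · intro τ
    refine ⟨?_, ?_⟩
    · intro v v' n h
      unfold aI join
      split_ifs
      · unfold rI
        rw [pre_congr fun i hi => h i (by omega)]
      · exact h _ (by omega)
    · intro v n
      have h1 : 1 + 2 * n = 2 * n + 1 := by ring
      unfold aI
      rw [h1, join_odd]
  · intro σ
    refine ⟨?_, ?_⟩
    · intro v v' n h
      unfold aII join
      split_ifs
      · exact h _ (by omega)
      · unfold rII
        rw [pre_congr fun i hi => h i (by omega)]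
    · intro v n
      have h1 : 0 + 2 * n = 2 * n := by ring
      unfold aII
      rw [h1, join_even]

end Pool.Agent.H1.LUD
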