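import Pool.Agent.H76.LUD.Targets

/-!
# MEA: the payoff sets are in the sigma-algebra of `f`
-/

set_option autoImplicit false

open Pool.Agent.H69 Pool.Agent.H81.TM Pool.Agent.H76.LUD

namespace Pool.Agent.H1.LUD

theorem pf_MEA : T_MEA := by
  intro f k E s hE
  letI : MeasurableSpace (ℕ → Bool) := Gam f
  have hP1 : MeasurableSet {x : ℕ → Bool | f (E x) k = true} :=
    MeasurableSpace.measurableSet_generateFrom (Or.inr ⟨E, k, hE, rfl⟩)
  have hP : MeasurableSet {x : ℕ → Bool | f (E x) k = s} := by
    cases s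
    · have h1 : {x : ℕ → Bool | f (E x) k = false} = {x | f (E x) k = true}ᶜ := by
        ext x
        simp
      rw [h1]
      exact hP1.compl
    · exact hP1
  have hQ : MeasurableSet {x : ℕ → Bool | ∃ n, x (4 * n) = true} := by
    refine MeasurableSpace.measurableSet_generateFrom (Or.inl ?_)
    have h1 : {x : ℕ → Bool | ∃ n, x (4 * n) = true} =
        ⋃ n, (fun x : ℕ → Bool => x (4 * n)) ⁻¹' {true} := by
      ext x
      simp
    change IsOpen {x : ℕ → Bool | ∃ n, x (4 * n) = true}
    rw [h1]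
    exact isOpen_iUnion fun n => (isOpen_discrete {true}).preimage (continuous_apply _)
  have hW : W f k E s = ({x | f (E x) k = s} ∩ {x | ∃ n, x (4 * n) = true}) ∪
      ({x | f (E x) k = s}ᶜ ∩ {x | ∃ n, x (4 * n) = true}ᶜ) := by
    ext x
    simp only [W, Set.mem_setOf_eq, Set.mem_union, Set.mem_inter_iff, Set.mem_compl_iff]
    tauto
  rw [hW]
  exact (hP.inter hQ).union (hP.compl.inter hQ.compl)

end Pool.Agent.H1.LUD
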